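import Pool.Agent.H3.SF.Tg2
import Pool.Agent.H92.SF.VAL
import Pool.Agent.H92.SF.JET
import Pool.Agent.H92.SF.PQV

/-!
# MP_70ba79_ag, THEOREM S: module EVL (the local inequality in normalised coordinates)
-/

set_option autoImplicit false

open MvPolynomial SC Pool.Agent.H27.LV
open Pool.Agent.H84.SM (dp cr dt)
open Pool.Agent.H92.SF Pool.Agent.H3.SF

namespace Pool.Agent.H48.SF

section Gauss

variable {k K : Type} [Field k] [Field K] [Algebra k K] (v : DV k K)

theorem el_ge {z : K} : ge v 0 z ↔ z ∈ v.vs := by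
  rw [DV.mem_vs]
  constructor
  · rintro (rfl | h)
    · rw [v.ord_zero]
    · exact h
  · exact fun h => Or.inr h

/-- from the valuation ring to the field -/
noncomputable def Mo : C3 v.vs →+* C3 K := Polynomial.mapRingHom (MvPolynomial.map v.vs.subtype)

/-- reduction -/
noncomputable def Rd : C3 v.vs →+* C3 v.Res :=
  Polynomial.mapRingHom (MvPolynomial.map (IsLocalRing.residue v.vs))

theorem mo_coeff (W : C3 v.vs) (j : ℕ) (a : Fin 3 →₀ ℕ) :
    ((Mo v W).coeff j).coeff a = (((W.coeff j).coeff a : v.vs) : K) := by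
  unfold Mo
  rw [Polynomial.coe_mapRingHom, Polynomial.coeff_map, coeff_map]
  rfl

theorem rd_coeff (W : C3 v.vs) (j : ℕ) (a : Fin 3 →₀ ℕ) :
    ((Rd v W).coeff j).coeff a = IsLocalRing.residue v.vs ((W.coeff j).coeff a) := by
  unfold Rd
  rw [Polynomial.coe_mapRingHom, Polynomial.coeff_map, coeff_map]

theorem lift3 (W : C3 K) (h : ∀ (j : ℕ) (a : Fin 3 →₀ ℕ), ge v 0 ((W.coeff j).coeff a)) :
    ∃ W0 : C3 v.vs, Mo v W0 = W := by
  have h1 : W ∈ Polynomial.lifts (MvPolynomial.map v.vs.subtype) := by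
    rw [Polynomial.lifts_iff_coeff_lifts]
    intro j
    rw [MvPolynomial.mem_range_map_iff_coeffs_subset]
    intro c hc
    obtain ⟨a, -, rfl⟩ := mem_coeffs_iff.1 hc
    exact ⟨⟨_, (el_ge v).1 (h j a)⟩, rfl⟩
  obtain ⟨q, hq⟩ := (Polynomial.mem_lifts W).1 h1
  exact ⟨q, hq⟩

theorem cc_coeff (c : K) (W : C3 K) (j : ℕ) (a : Fin 3 →₀ ℕ) :
    ((cc c * W).coeff j).coeff a = c * (W.coeff j).coeff a := by
  unfold cc
  rw [RingHom.comp_apply, Polynomial.coeff_C_mul, coeff_C_mul]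

/-- every polynomial is a constant times a primitive polynomial -/
theorem prim3 (W : C3 K) : ∃ (c : K) (W0 : C3 v.vs), W = cc c * Mo v W0 ∧ Rd v W0 ≠ 0 := by
  classical
  rcases eq_or_ne W 0 with rfl | hW
  · refine ⟨0, 1, ?_, ?_⟩
    · rw [map_zero, zero_mul]
    · rw [map_one]
      exact one_ne_zero
  · obtain ⟨T, hT⟩ : ∃ T : Finset K, T = W.support.biUnion fun j => (W.coeff j).coeffs := ⟨_, rfl⟩
    have hmem : ∀ (j : ℕ) (a : Fin 3 →₀ ℕ), (W.coeff j).coeff a ≠ 0 → (W.coeff j).coeff a ∈ T := by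
      intro j a h
      rw [hT, Finset.mem_biUnion]
      refine ⟨j, ?_, ?_⟩
      · rw [Polynomial.mem_support_iff]
        intro h0
        rw [h0, coeff_zero] at h
        exact h rfl
      · exact mem_coeffs_iff.2 ⟨a, mem_support_iff.2 h, rfl⟩
    have hne : T.Nonempty := by
      obtain ⟨j, hj⟩ : ∃ j, W.coeff j ≠ 0 := by
        by_contra h
        push Not at h
        exact hW (Polynomial.ext fun n => by rw [h n, Polynomial.coeff_zero])
      obtain ⟨a, ha⟩ : ∃ a, (W.coeff j).coeff a ≠ 0 := by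
        by_contra h
        push Not at h
        exact hj (MvPolynomial.ext _ _ fun n => by rw [h n, coeff_zero])
      exact ⟨_, hmem j a ha⟩
    obtain ⟨c, hc, hmin⟩ := Finset.exists_min_image T v.ord hne
    rw [hT, Finset.mem_biUnion] at hc
    obtain ⟨j0, -, hc⟩ := hc
    obtain ⟨a0, ha0, hc0⟩ := mem_coeffs_iff.1 hc
    have hc1 : c ≠ 0 := by
      rw [hc0]
      exact mem_support_iff.1 ha0
    have h1 : ∀ (j : ℕ) (a : Fin 3 →₀ ℕ), ge v 0 (((cc c⁻¹ * W).coeff j).coeff a) := by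
      intro j a
      rw [cc_coeff]
      rcases eq_or_ne ((W.coeff j).coeff a) 0 with h | h
      · rw [h, mul_zero]
        exact Or.inl rfl
      · right
        rw [v.ord_mul _ _ (inv_ne_zero hc1) h, v.ord_inv]
        have := hmin _ (hmem j a h)
        omega
    obtain ⟨W0, hW0⟩ := lift3 v _ h1
    refine ⟨c, W0, ?_, ?_⟩
    · rw [hW0, ← mul_assoc, ← map_mul, mul_inv_cancel₀ hc1, map_one, one_mul]
    · intro h0
      have h2 := rd_coeff v W0 j0 a0
      have h3 : (W0.coeff j0).coeff a0 = 1 := by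
        refine Subtype.ext ?_
        rw [← mo_coeff, hW0, cc_coeff, ← hc0, inv_mul_cancel₀ hc1]
        rfl
      rw [h0, h3, map_one, Polynomial.coeff_zero, coeff_zero] at h2
      exact zero_ne_one h2

theorem val3 {ρ : Fin 3 → K} {ζ : K} (hρ : ∀ i, ρ i ∈ v.vs) (hζ : ζ ∈ v.vs) (W0 : C3 v.vs) :
    ev3 (RingHom.id K) ρ ζ (Mo v W0) ∈ v.vs := by
  have h1 : (ev3 (RingHom.id K) ρ ζ).comp (Mo v) =
      v.vs.subtype.comp (ev3 (RingHom.id v.vs) (fun i => ⟨ρ i, hρ i⟩) ⟨ζ, hζ⟩) := by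
    unfold ev3 Mo
    apply Polynomial.ringHom_ext'
    · apply MvPolynomial.ringHom_ext
      · intro a
        simp
      · intro i
        simp
    · simp
  have h2 := congrArg (fun f : C3 v.vs →+* K => f W0) h1
  have h3 : ev3 (RingHom.id K) ρ ζ (Mo v W0) =
    ((ev3 (RingHom.id v.vs) (fun i => ⟨ρ i, hρ i⟩) ⟨ζ, hζ⟩ W0 : v.vs) : K) := h2
  rw [h3]
  exact SetLike.coe_mem _

theorem gauss3 (A B : C3 K) (r : ℕ)
    (h : ∀ (j : ℕ) (a : Fin 3 →₀ ℕ), ge v 0 (((A ^ r * B).coeff j).coeff a)) {ρ : Fin 3 → K}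
    {ζ : K} (hρ : ∀ i, ρ i ∈ v.vs) (hζ : ζ ∈ v.vs) :
    ev3 (RingHom.id K) ρ ζ (B * Polynomial.derivative A ^ r) ∈ v.vs := by
  obtain ⟨c, A0, hA, hA0⟩ := prim3 v A
  obtain ⟨d, B0, hB, hB0⟩ := prim3 v B
  have h1 : Rd v (A0 ^ r * B0) ≠ 0 := by
    rw [map_mul, map_pow]
    exact mul_ne_zero (pow_ne_zero r hA0) hB0
  obtain ⟨j, hj⟩ : ∃ j, (Rd v (A0 ^ r * B0)).coeff j ≠ 0 := by
    by_contra hh
    push Not at hh
    exact h1 (Polynomial.ext fun n => by rw [hh n, Polynomial.coeff_zero])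
  obtain ⟨a, ha⟩ : ∃ a, ((Rd v (A0 ^ r * B0)).coeff j).coeff a ≠ 0 := by
    by_contra hh
    push Not at hh
    exact hj (MvPolynomial.ext _ _ fun n => by rw [hh n, coeff_zero])
  rw [rd_coeff, IsLocalRing.residue_ne_zero_iff_isUnit] at ha
  obtain ⟨y, hy⟩ := ha
  have hAB : A ^ r * B = cc (c ^ r * d) * Mo v (A0 ^ r * B0) := by
    rw [hA, hB, map_mul, map_pow, map_mul, map_pow]
    ring
  have h2 := (el_ge v).1 (h j a)
  rw [hAB, cc_coeff, mo_coeff, ← hy] at h2
  have h3 : c ^ r * d ∈ v.vs := by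
    have h4 := mul_mem h2 (SetLike.coe_mem ((y⁻¹ : v.vsˣ) : v.vs))
    have h5 : (((y : v.vs) : K)) * (((y⁻¹ : v.vsˣ) : v.vs) : K) = 1 := by
      rw [← MulMemClass.coe_mul, Units.mul_inv]
      rfl
    rwa [mul_assoc, h5, mul_one] at h4
  have h6 : B * Polynomial.derivative A ^ r =
      cc (c ^ r * d) * Mo v (B0 * Polynomial.derivative A0 ^ r) := by
    have h7 : Polynomial.derivative A = cc c * Mo v (Polynomial.derivative A0) := by
      rw [hA]
      unfold cc Mo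
      rw [RingHom.comp_apply, Polynomial.derivative_C_mul, Polynomial.coe_mapRingHom,
        Polynomial.derivative_map]
    rw [h7, hB, map_mul, map_mul, map_pow, map_pow]
    ring
  rw [h6, map_mul, ev3_cc]
  exact mul_mem h3 (val3 v hρ hζ _)

end Gauss

theorem wh_der {L : Type} [CommRing L] {w : ℕ} {P : Q2 L} (hP : WH w P) (hw : 3 ≤ w) :
    WH (w - 3) (Polynomial.derivative P) := by
  intro j
  rw [Polynomial.coeff_derivative]
  refine ⟨fun h => ?_, fun h => ?_⟩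
  · have h1 := (hP (j + 1)).1 (by omega)
    have h2 : w - 3 * (j + 1) = w - 3 - 3 * j + 0 := by omega
    rw [h2] at h1
    have h3 : ((j : MvPolynomial (Fin 2) L) + 1) = C ((j : L) + 1) := by simp
    rw [h3]
    exact (by simpa using h1 : (P.coeff (j + 1)).IsHomogeneous (w - 3 - 3 * j)).mul
      (isHomogeneous_C _ _)
  · rw [(hP (j + 1)).2 (by omega), zero_mul]

theorem pf_EVL : T_EVL := by
  intro k K _ _ _ _ v θ m x g G s H hm hD hG hs hθ hx he hs0 hθG hθg hlam r w n' P N hP hN hdeg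
    hPN hint
  have : CharZero K := charZero_of_injective_algebraMap (algebraMap k K).injective
  obtain ⟨e, he0, he1⟩ := he
  obtain ⟨lam, hlm⟩ : ∃ lam : K, lam = θ G / (m * G) := ⟨_, rfl⟩
  obtain ⟨q, hq⟩ : ∃ q : Fin 3 → K, q = fun i => θ (x i) - lam * x i := ⟨_, rfl⟩
  obtain ⟨t, ht⟩ : ∃ t : Fin 3 → K, t = cr q (fun j => θ (q j) - lam * q j) := ⟨_, rfl⟩
  obtain ⟨hJ1, hJ2, hJ3, hJ4⟩ := pf_JET K (θ.restrictScalars ℤ) m x g G H hm hD hG hθG hθg q t
    (fun i => by rw [hq, hlm]; rfl) (fun i => by rw [ht, hlm]; rfl)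
  -- regularity
  have hθ' : ∀ z, z ∈ v.vs → θ z ∈ v.vs := fun z hz => (el_ge v).1 (hθ z ((v.mem_vs z).1 hz))
  have hx' : ∀ i, x i ∈ v.vs := fun i => (el_ge v).1 (hx i)
  have he' : ∀ i, e i ∈ v.vs := fun i => (el_ge v).1 (he0 i)
  have hs' : s ∈ v.vs := (el_ge v).1 hs0
  have hl' : lam ∈ v.vs := by
    have h1 : lam = θ G / G * (algebraMap k K (m : k)⁻¹) := by
      rw [hlm, map_inv₀, map_natCast, div_mul_eq_div_div_swap, div_eq_mul_inv (θ G / G)]
    rw [h1]
    refine mul_mem ((el_ge v).1 hlam) ?_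
    rw [DV.mem_vs, v.ord_base]
  have hq' : ∀ i, q i ∈ v.vs := by
    intro i
    rw [hq]
    exact sub_mem (hθ' _ (hx' i)) (mul_mem hl' (hx' i))
  have hcr : ∀ a b : Fin 3 → K, (∀ i, a i ∈ v.vs) → (∀ i, b i ∈ v.vs) → ∀ i, cr a b i ∈ v.vs :=
    fun a b ha hb i => sub_mem (mul_mem (ha _) (hb _)) (mul_mem (ha _) (hb _))
  have ht' : ∀ i, t i ∈ v.vs := by
    rw [ht]
    exact hcr _ _ hq' fun j => sub_mem (hθ' _ (hq' j)) (mul_mem hl' (hq' j))
  have hρ : ∀ i, cr q e i ∈ v.vs := hcr _ _ hq' he'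
  have hζ : s ^ 6 * dp t e ∈ v.vs := by
    refine mul_mem (pow_mem hs' 6) (sum_mem fun i _ => mul_mem (ht' i) (he' i))
  -- the value of a homogeneous element
  have hval : ∀ (n : ℕ) (V : Q2 K), WH n V →
      ev3 (RingHom.id K) (cr q e) (s ^ 6 * dp t e) (Psi m x g G H s V) =
        s ^ (2 * n) * evc θ x V := by
    intro n V hV
    have h1 := pf_VAL K K (RingHom.id K) m x g G H s hD q t e hJ1 hJ2 he1 V
    have h2 := pf_SCL K K (RingHom.id K) (RingHom.id K) n 0 V 1 (s ^ 2) one_ne_zero hV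
      (fun j a => by rw [one_zpow, one_mul]) (cr x fun i => θ (x i))
      (dt x (fun i => θ (x i)) fun i => θ (θ (x i)))
    have h3 : (fun i => (RingHom.id K) s ^ 2 * cr (fun i => (RingHom.id K) (x i)) q i) =
        fun i => (1 : K) ^ 2 * s ^ 2 * cr x (fun i => θ (x i)) i := by
      funext i
      rw [one_pow, one_mul]
      exact congrArg (fun z => s ^ 2 * z) (hJ3 i)
    have h4 : (RingHom.id K) s ^ 6 * dp (fun i => (RingHom.id K) (x i)) t =
        (1 : K) ^ 3 * (s ^ 2) ^ 3 * dt x (fun i => θ (x i)) fun i => θ (θ (x i)) := by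
      rw [one_pow, one_mul, ← pow_mul]
      exact congrArg (fun z => s ^ 6 * z) hJ4
    rw [h3, h4, h2, zpow_zero, one_mul, ← pow_mul] at h1
    exact h1
  have hw : 3 ≤ w := by
    by_contra h
    push Not at h
    have h1 := (hP P.natDegree).2 (by omega)
    have h2 : P ≠ 0 := by
      rintro rfl
      simp at hdeg
    exact h2 (Polynomial.leadingCoeff_eq_zero.1 h1)
  have hmain := gauss3 v (Psi m x g G H s P) (Psi m x g G H s N) r
    (by
      intro j a
      have h1 := hint j a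
      rwa [map_mul, map_pow] at h1) hρ hζ
  rw [map_mul, map_pow, pf_PDW K m x g G H s P, map_mul, ev3_cc, hval n' N hN,
    hval (w - 3) _ (wh_der hP hw)] at hmain
  rw [el_ge v]
  have hfin : s ^ (2 * (n' + r * (w - 3))) *
      (evc θ x N * (m * G * evc θ x (Polynomial.derivative P)) ^ r) =
      s ^ (2 * n') * evc θ x N * ((RingHom.id K) (m * G) *
        (s ^ (2 * (w - 3)) * evc θ x (Polynomial.derivative P))) ^ r := by
    have h1 : s ^ (2 * (n' + r * (w - 3))) = s ^ (2 * n') * (s ^ (2 * (w - 3))) ^ r := by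
      rw [← pow_mul, ← pow_add]
      congr 1
      ring
    rw [h1]
    simp only [RingHom.id_apply]
    ring
  rw [hfin]
  exact hmain

end Pool.Agent.H48.SF
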