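import Pool.Agent.H84.SF.Geo2
import Pool.Agent.H68.SF.HMK

/-!
# MP_70ba79_ag, chapter 11: module LCS (contact at a point of the curve)
-/

set_option autoImplicit false

namespace Pool.Agent.H48.SF

open MvPolynomial SC
open Pool.Agent.H84.SF
open Pool.Agent.H27.LV (ge deg poleOrder canDeg)
open Pool.Agent.H92.OD (HS cf sg uu Lat geO IsO DF DD)
open Pool.Agent.H84.SM (y1 y2 Near cr dt dp)
open Pool.Agent.H3.SF (Itg Bb BB Hm eu grd hes Sfc Crd Cnn Crf Prm nv)

section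

variable {k F σ : Type} [Field k] [Field F] [Algebra k F]

/-- a derivation which vanishes at the coordinates vanishes at the polynomials in them -/
theorem der_zero (X : σ → F) (δ : Derivation k F F) (h : ∀ i, δ (X i) = 0)
    (f : MvPolynomial σ k) : δ (aeval X f) = 0 := by
  induction f using MvPolynomial.induction_on with
  | C a => rw [algHom_C, Derivation.map_algebraMap]
  | add p q hp hq => rw [map_add, map_add, hp, hq, add_zero]
  | mul_X p i hp =>
    rw [map_mul, aeval_X, Derivation.leibniz, h i, hp, smul_zero, smul_zero, add_zero]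

theorem lin_dd {X : σ → F} {u : Fin 3 → F} {dd : Fin 3 → Derivation k F F}
    {J : MvPolynomial (Fin 3) k} {j0 : ℕ} (hY : SYd X u dd J j0) :
    LinearIndependent F fun l => fun i => dd l (X i) := by
  rw [Fintype.linearIndependent_iff]
  intro a ha j
  have hsum : ∀ x, (∑ l, a l • dd l) x = ∑ l, a l * dd l x := by
    intro x
    rw [Fin.sum_univ_three, Fin.sum_univ_three]
    rfl
  have h1 : ∀ i, (∑ l, a l • dd l) (X i) = 0 := by
    intro i
    have h2 := congrFun ha i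
    rw [Finset.sum_apply] at h2
    rw [hsum]
    exact h2
  obtain ⟨U, -, hU⟩ := hY.ulin j
  have h3 := der_zero X _ h1 U
  rw [hU, hsum] at h3
  simp only [hY.ddu, mul_ite, mul_one, mul_zero] at h3
  rw [Finset.sum_ite_eq' Finset.univ j, if_pos (Finset.mem_univ j)] at h3
  exact h3

end

theorem pf_LCS (hOSF : Pool.Agent.H84.SF.T_OSF) (hHMK : Pool.Agent.H84.SF.T_HMK)
    (hCHK : Pool.Agent.H84.SF.T_CHK) (hBDV : Pool.Agent.H84.SF.T_BDV)
    (hLC2 : Pool.Agent.H84.SF.T_LC2) (hTRY : Pool.Agent.H84.SF.T_TRY)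
    (hLFT : Pool.Agent.H84.SF.T_LFT) (hEQS : Pool.Agent.H84.SF.T_EQS)
    (hDSO : Pool.Agent.H84.SF.T_DSO) (hJBD : Pool.Agent.H84.SF.T_JBD)
    (hPRX : Pool.Agent.H84.SF.T_PRX) : Pool.Agent.H84.SF.T_LCS := by
  intro k F σ _ _ _ _ _ _ _ X u dd J j0 m G GP hY hD α A b hC s hs hc hGs0
  have hm : 1 ≤ m := le_trans one_le_two hD.two
  obtain ⟨hN, L0, L1, cX, cG, ε, x1, Gs, dX, dG, hl0, hl1, hv0, hv1, hder, heps, heX, heG, hfrm,
    hdX, hdG⟩ := hOSF k F σ X s dd GP m hc hs (lin_dd hY) hm hD.hG hGs0 (hD.smo s hs hc hGs0)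
  have hFr : FrO X s dd m GP L0 L1 cX cG ε x1 Gs dX dG :=
    ⟨hl0, hl1, hv0, hv1, hGs0, hder, heps, heX, heG, hfrm, hdX, hdG⟩
  obtain ⟨p, A1, b1, hL⟩ := hLFT k F σ X u dd J j0 hY s hc L0 hl0 hv0 m G α A b hC
  have hdv := hDSO k F σ X u dd J j0 m G GP hY hD s hs hc L0 L1 cX cG ε x1 Gs dX dG hFr hN α A b
    hC p A1 b1 hL
  have := hN
  obtain ⟨C0, hC01, hC0⟩ := hLC2 k (Os X s) ε x1 Gs dX dG hfrm (Aloc dX dG p A1)
    (bloc dX dG p A1 b1) hdv
  refine ⟨C0, ?_⟩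
  intro K _ _ _ htr φ x g S hcr hP hA0 D hD0 B hV hE v c hc0 hvc hcen
  obtain ⟨z, hz⟩ : ∃ z : σ → K, z = fun i => φ ⟨X i, hY.Xint i⟩ := ⟨_, rfl⟩
  have hzX : ∀ (i : σ) (b : Bb k u), (b : F) = X i → φ b = z i := by
    intro i b hb
    rw [hz]
    exact congrArg φ (Subtype.ext hb)
  have hz0 : ∀ f : MvPolynomial σ k, aeval X f = 0 → aeval z f = 0 := by
    intro f hf
    have h1 : ∀ f : MvPolynomial σ k,
        ((aeval (fun i => (⟨X i, hY.Xint i⟩ : Bb k u)) f : Bb k u) : F) = aeval X f := by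
      intro f
      have h3 : (Bb k u).val (aeval (fun i => (⟨X i, hY.Xint i⟩ : Bb k u)) f) = aeval X f := by
        rw [← AlgHom.comp_apply, MvPolynomial.comp_aeval]
        rfl
      exact h3
    have h4 : aeval (fun i => (⟨X i, hY.Xint i⟩ : Bb k u)) f = 0 :=
      Subtype.ext ((h1 f).trans hf)
    have h5 : aeval z f = φ (aeval (fun i => (⟨X i, hY.Xint i⟩ : Bb k u)) f) := by
      rw [← AlgHom.comp_apply, MvPolynomial.comp_aeval, hz]
    rw [h5, h4, map_zero]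
  have hcen' : ∀ i, ge v 1 (c * z i - algebraMap k K (s i)) := by
    intro i
    rw [hz]
    exact hcen i _ rfl
  obtain ⟨y, hy1, hy2, hy3⟩ := hHMK k F σ K X s hc z hz0 v c hc0 hcen'
  have hH : HmK X s z ε v y := ⟨hy1, hy2, hy3 ε heps⟩
  have hbd := hBDV k K htr D v
  have hch := hCHK k (Os X s) K ε x1 Gs dX dG hfrm y v hy2 (hy3 ε heps) D hbd
  have hzL : aeval z L0 ≠ 0 := by
    have h1 := (Pool.Agent.H68.SF.hmk_unit v (fun i => c * z i) s hcen' hv0).1
    rw [Pool.Agent.H68.SF.hmk_scale z c hl0, pow_one] at h1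
    exact right_ne_zero_of_mul h1
  have heq := hEQS k F σ K X u dd J j0 hY s hc L0 hl0 hv0 m G α A b hC p A1 b1 hL φ x z hcr.cx hzX
    hzL hcr.Jx ε v y hH D B hV hE
  have hK := hTRY k (Os X s) K x1 Gs dX dG y D hch p A1 b1 hL.hh heq
  have hgen := hPRX k F σ K X u dd J j0 hY s hc L0 hl0 hv0 φ x z hcr.cx hzX hcr.one hzL hcr.Jx hP
    ε v y hH
  obtain ⟨hA1, hA2, hG1, hG2⟩ := hJBD k F σ K htr X u dd J j0 m G GP hY hD s hc L0 L1 cX cG ε x1
    Gs dX dG hFr α A b hC p A1 b1 hL φ x g S hcr hA0 v c hc0 hvc hcen z hzX y hH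
  have hor := hC0 K htr D hD0 y v hy2 (hy3 ε heps) hG1 hA1 hgen hK
  have h0 : 0 ≤ v.ord (y (Aloc dX dG p A1)) := (hy2 _).resolve_left hA1
  rw [hG2] at hor
  refine ⟨?_, ?_⟩
  · rcases hor with h | h
    · have h1 : (0 : ℤ) ≤ C0 := Int.natCast_nonneg _
      linarith
    · linarith
  · intro e1 e2
    rw [e1, e2] at hA2
    have h1 : ε (Aloc dX dG p A1) ≠ 0 := by
      intro h2
      have h3 := (hy3 ε heps _ h2).resolve_left hA1
      linarith
    have h4 := hC01 h1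
    rcases hor with h | h
    · linarith
    · rw [h4] at h
      exact_mod_cast h

end Pool.Agent.H48.SF
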