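import Pool.Agent.H84.SF.Geo2

/-!
# MP_70ba79_ag, chapter 11: module LOX (the boundary statement)
-/

set_option autoImplicit false

namespace Pool.Agent.H48.SF

open MvPolynomial SC
open Pool.Agent.H84.SF
open Pool.Agent.H27.LV (ge deg poleOrder canDeg)
open Pool.Agent.H92.OD (HS cf sg uu Lat geO IsO DF DD)
open Pool.Agent.H84.SM (y1 y2 Near cr dt dp)
open Pool.Agent.H3.SF (Itg Bb BB Hm eu grd hes Sfc Crd Cnn Crf Prm nv)

theorem pf_LOX (hLOC : Pool.Agent.H84.SF.T_LOC) : Pool.Agent.H84.SF.T_LOX := by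
  refine ⟨4, ?_⟩
  intro k F σ _ _ _ _ _ _ _ X u dd δ j0 c0 J hS hX m G hm hG hSm α A b hC hlt
  obtain ⟨GP, hGP, hval, hsmo⟩ := hSm
  have hY : SYd X u dd J j0 :=
    ⟨hS.ind, hS.du, hS.comm, hX.ulin, hX.Xint, hX.Xeu, hS.Jh, hS.J0, hX.JI,
      fun a l ha => hS.Jd l a ha⟩
  have hD : DYd X u dd j0 m G GP := ⟨hG, hGP, hval, by omega, hm, hsmo⟩
  obtain ⟨C, hL⟩ := hLOC k F σ X u dd J j0 m G GP hY hD α A b hC (by omega)
  refine ⟨max α C, ?_⟩
  intro K _ _ _ htr D hD0 φ x g S hP hcr b0 hb0 hE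
  by_cases hA : aeval x A = 0
  · exact Or.inl ⟨α, A, le_max_left _ _, hC.ne, hC.hA, hA⟩
  · right
    have hV : VM3 u φ b (map (φ : Bb k u →+* K) b0) := by
      intro a h hh
      rw [coeff_map]
      have h1 : h = b0.coeff a := by
        refine Subtype.ext ?_
        rw [hh, ← hb0, coeff_map]
        rfl
      rw [h1]
      rfl
    have hE' : EqC D x A (map (φ : Bb k u →+* K) b0) := by
      unfold EqC
      rw [eval_map]
      exact hE
    have h2 := (hL K htr φ x g S hcr hP hA D hD0 _ hV hE').2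
    have h3 : (deg k x : ℤ) ≤ C * S.card := by
      have h4 : (1 : ℤ) ≤ m - (α + 4 * j0) := by
        have h5 : ((α + 4 * j0 : ℕ) : ℤ) < m := by exact_mod_cast hlt
        push_cast at h5
        linarith
      have h6 : (0 : ℤ) ≤ deg k x := Int.natCast_nonneg _
      nlinarith
    have h7 : deg k x ≤ C * S.card := by exact_mod_cast h3
    exact h7.trans (Nat.mul_le_mul_right _ (le_max_right _ _))

end Pool.Agent.H48.SF
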