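import Pool.Agent.H3.SF.Tg2

/-!
# MP_70ba79_ag, THEOREM S: module CNI (recovering the cubic form from the chart)
-/

set_option autoImplicit false

open MvPolynomial SC Pool.Agent.H27.LV
open Pool.Agent.H84.SM (dp cr dt)
open Pool.Agent.H92.SF Pool.Agent.H3.SF

namespace Pool.Agent.H48.SF

section

variable {F R : Type} [Field F] [CommRing R] [Algebra F R]

theorem ci_chain (f : Fin 3 → Polynomial R) (b : MvPolynomial (Fin 3) F) :
    Polynomial.derivative (aeval f b) = ∑ i, aeval f (pderiv i b) * Polynomial.derivative (f i) := by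
  induction b using MvPolynomial.induction_on with
  | C a =>
    rw [algHom_C, Polynomial.algebraMap_apply, Polynomial.derivative_C]
    refine (Finset.sum_eq_zero fun i _ => ?_).symm
    rw [pderiv_C, map_zero, zero_mul]
  | add p q hp hq =>
    rw [map_add, map_add, hp, hq, ← Finset.sum_add_distrib]
    refine Finset.sum_congr rfl fun i _ => ?_
    rw [map_add, map_add, add_mul]
  | mul_X p j hp =>
    rw [map_mul, aeval_X, Polynomial.derivative_mul, hp, Finset.sum_mul]
    have h1 : ∀ i, aeval f (pderiv i (p * X j)) * Polynomial.derivative (f i) =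
        aeval f (pderiv i p) * Polynomial.derivative (f i) * f j +
          (if i = j then aeval f p * Polynomial.derivative (f i) else 0) := by
      intro i
      rw [pderiv_mul, pderiv_X, map_add, map_mul, map_mul, aeval_X]
      by_cases h : i = j
      · rw [if_pos h, h, Pi.single_eq_same, map_one]
        ring
      · rw [if_neg h, Pi.single_eq_of_ne (Ne.symm h), map_zero]
        ring
    simp only [h1]
    rw [Finset.sum_add_distrib, Finset.sum_ite_eq' Finset.univ j, if_pos (Finset.mem_univ j)]

/-- invariance -/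
theorem ci_shift [IsDomain R] [CharZero R] (u : Fin 3 → F) {b : MvPolynomial (Fin 3) F}
    (hb : ∑ i, C (u i) * pderiv i b = 0) (y : Fin 3 → R) (η : R) :
    aeval (fun i => y i + η * algebraMap F R (u i)) b = aeval y b := by
  obtain ⟨f, hf⟩ : ∃ f : Fin 3 → Polynomial R, f = fun i =>
    Polynomial.C (y i) + Polynomial.X * Polynomial.C (algebraMap F R (u i)) := ⟨_, rfl⟩
  have h1 : Polynomial.derivative (aeval f b) = 0 := by
    rw [ci_chain]
    have h2 : ∀ i, aeval f (pderiv i b) * Polynomial.derivative (f i) =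
        aeval f (C (u i) * pderiv i b) := by
      intro i
      rw [map_mul, algHom_C, Polynomial.algebraMap_apply, hf]
      simp only [Polynomial.derivative_add, Polynomial.derivative_C, Polynomial.derivative_mul,
        Polynomial.derivative_X, one_mul, mul_zero, add_zero, zero_add]
      ring
    simp only [h2]
    rw [← map_sum, hb, map_zero]
  have h3 : (aeval f b).natDegree = 0 := Polynomial.derivative_eq_zero.1 h1
  obtain ⟨c, hc⟩ := Polynomial.natDegree_eq_zero.1 h3
  have h4 : ∀ t : R, Polynomial.eval t (aeval f b) =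
      aeval (fun i => y i + t * algebraMap F R (u i)) b := by
    intro t
    have h5 : ((Polynomial.aeval t : Polynomial R →ₐ[R] R).restrictScalars F).comp (aeval f) =
        aeval (fun i => y i + t * algebraMap F R (u i)) := by
      refine MvPolynomial.algHom_ext fun i => ?_
      rw [AlgHom.comp_apply, aeval_X, aeval_X, hf]
      simp
      ring
    have h6 := congrArg (fun g => g b) h5
    exact h6
  have h7 := h4 0
  have h8 := h4 η
  rw [← hc, Polynomial.eval_C] at h7 h8
  rw [← h8, h7]
  simp

/-- homogeneity -/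
theorem ci_scale (c : R) (y : Fin 3 → R) {b : MvPolynomial (Fin 3) F} {n : ℕ}
    (hb : b.IsHomogeneous n) : aeval (fun i => c * y i) b = c ^ n * aeval y b := by
  rw [aeval_def, aeval_def, eval₂_eq, eval₂_eq, Finset.mul_sum]
  refine Finset.sum_congr rfl fun m hm => ?_
  have h1 : ∑ i ∈ m.support, m i = n := by
    have h2 := hb (mem_support_iff.1 hm)
    rw [Finsupp.weight_apply, Finsupp.sum] at h2
    simpa using h2
  rw [Finset.prod_congr rfl fun i _ => mul_pow c (y i) (m i), Finset.prod_mul_distrib,
    Finset.prod_pow_eq_pow_sum, h1]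
  ring

end

theorem pf_CNI (_hSF1 : Pool.Agent.H3.SF.T_SF1) (hSF2 : Pool.Agent.H3.SF.T_SF2) :
    Pool.Agent.H3.SF.T_CNI := by
  intro k F _ _ _ _ _ u dd δ j0 c0 J hS m G hm hG b hb
  have hD := (hSF2 k F u dd δ j0 c0 J hS m G hG).1
  have : CharZero F := charZero_of_injective_algebraMap (algebraMap k F).injective
  obtain ⟨Φ, hΦ⟩ : ∃ Φ : MvPolynomial (Fin 3) F →ₐ[F] MvPolynomial (Fin 3) F,
    Φ = aeval (fun i => - cr (fun j => C (u j)) X i) := ⟨_, rfl⟩
  have hX : ∀ i, Φ (X i) = - cr (fun j => C (u j)) X i := by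
    intro i
    rw [hΦ, aeval_X]
  have hC : ∀ a, Φ (C a) = C a := fun a => algHom_C Φ a
  rw [← hΦ]
  unfold bet
  have h1 : Φ (dp (fun i => C (u i)) X) = 0 := by
    simp only [dp, Fin.sum_univ_three, map_add, map_mul, hX, hC]
    simp [cr]
    ring
  have h2 : ∀ i, Φ (C (aeval u J ^ 2) * gx dd G i) =
      C (aeval u J ^ 2) * (C ((m : F) * G) * X i + (- dp (fun j => C (dd j G)) X) * C (u i)) := by
    intro i
    have he := hD.eul
    rw [← he]
    rw [map_mul, hC]
    congr 1
    unfold gx grd
    fin_cases i <;>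
    simp [cr, dp, Fin.sum_univ_three, hX, hC] <;> ring
  rw [map_sub, map_mul, h1, mul_zero, sub_zero]
  have h3 : Φ (aeval (fun i => C (aeval u J ^ 2) * gx dd G i) b) =
      aeval (fun i => Φ (C (aeval u J ^ 2) * gx dd G i)) b := by
    rw [← AlgHom.comp_apply, comp_aeval]
  rw [h3]
  simp only [h2]
  rw [ci_scale _ _ hb.hb]
  have h4 := ci_shift (R := MvPolynomial (Fin 3) F) u hb.inv (fun i => C ((m : F) * G) * X i)
    (- dp (fun j => C (dd j G)) X)
  have h5 : aeval (fun i => C ((m : F) * G) * X i) b = C ((m : F) * G) ^ 3 * b := by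
    rw [ci_scale _ _ hb.hb, aeval_X_left_apply]
  rw [h5] at h4
  have h6 : aeval (fun i => C ((m : F) * G) * X i + (- dp (fun j => C (dd j G)) X) * C (u i)) b =
      C ((m : F) * G) ^ 3 * b := h4
  rw [h6, ← mul_assoc, ← C_pow, ← C_pow, ← C_mul]
  congr 2
  ring

end Pool.Agent.H48.SF
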