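import Pool.Agent.H72.SF.XT

/-!
Module XG of the board sf_modules (MP_3b3fc8_lc): existence of generic filters over countable sets.
-/

set_option autoImplicit false

open Ordinal Cardinal Order Set
open scoped ZFSet

namespace SF.H48

open SF

private theorem xg_step (C D x : V) (hx : x ∈ C) (hne : x ≠ ∅) : ∃ y ∈ C, y ≠ ∅ ∧ y ⊆ x ∧
    (D ⊆ C → (∀ x ∈ C, x ≠ ∅ → ∃ d ∈ D, d ≠ ∅ ∧ d ⊆ x) → y ∈ D) := by
  by_cases h : D ⊆ C ∧ ∀ x ∈ C, x ≠ ∅ → ∃ d ∈ D, d ≠ ∅ ∧ d ⊆ x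
  · obtain ⟨d, hd, h1, h2⟩ := h.2 x hx hne
    exact ⟨d, h.1 hd, h1, h2, fun _ _ => hd⟩
  · exact ⟨x, hx, hne, fun _ hz => hz, fun h1 h2 => absurd ⟨h1, h2⟩ h⟩

theorem xg : T_XG := by
  intro N C c hN hC hc hne
  obtain ⟨e, he⟩ : ∃ e : ℕ → V, ∀ D ∈ N, ∃ n, e n = D := by
    by_cases hN0 : (N : Set V).Nonempty
    · obtain ⟨e, he⟩ := hN.exists_eq_range hN0
      refine ⟨e, fun D hD => ?_⟩
      have h1 : D ∈ (N : Set V) := hD
      rw [he] at h1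
      exact h1
    · refine ⟨fun _ => ∅, fun D hD => ?_⟩
      exact absurd ⟨D, hD⟩ hN0
  -- the sequence
  choose! f hf1 hf2 hf3 hf4 using fun (D x : V) (hx : x ∈ C) (hne : x ≠ ∅) => xg_step C D x hx hne
  let s : ℕ → V := fun n => Nat.rec c (fun n y => f (e n) y) n
  have s0 : s 0 = c := rfl
  have s1 : ∀ n, s (n + 1) = f (e n) (s n) := fun n => rfl
  have hs : ∀ n, s n ∈ C ∧ s n ≠ ∅ := by
    intro n
    induction n with
    | zero => exact ⟨hc, hne⟩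
    | succ n ih =>
      rw [s1]
      exact ⟨hf1 _ _ ih.1 ih.2, hf2 _ _ ih.1 ih.2⟩
  have hdec : ∀ n, s (n + 1) ⊆ s n := by
    intro n
    rw [s1]
    exact hf3 _ _ (hs n).1 (hs n).2
  have hmono : ∀ m n, m ≤ n → s n ⊆ s m := by
    intro m n hmn
    induction n, hmn using Nat.le_induction with
    | base => exact fun _ hz => hz
    | succ n _ ih => exact fun z hz => ih (hdec n hz)
  refine ⟨C.sep fun x => ∃ n, s n ⊆ x, ?_, ?_⟩
  · refine ⟨?_, ?_, ?_, ?_, ?_, ?_⟩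
    · exact fun z hz => (ZFSet.mem_sep.1 hz).1
    · exact ⟨c, ZFSet.mem_sep.2 ⟨hc, 0, fun _ hz => hz⟩⟩
    · intro h
      obtain ⟨-, n, hn⟩ := ZFSet.mem_sep.1 h
      exact (hs n).2 (subset_antisymm hn (ZFSet.empty_subset _))
    · intro x hx y hy hxy
      obtain ⟨-, n, hn⟩ := ZFSet.mem_sep.1 hx
      exact ZFSet.mem_sep.2 ⟨hy, n, fun z hz => hxy (hn hz)⟩
    · intro x hx y hy
      obtain ⟨hx1, n, hn⟩ := ZFSet.mem_sep.1 hx
      obtain ⟨hy1, m, hm⟩ := ZFSet.mem_sep.1 hy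
      refine ZFSet.mem_sep.2 ⟨hC x hx1 y hy1, max n m, fun z hz => ?_⟩
      exact ZFSet.mem_inter.2 ⟨hn (hmono n _ (le_max_left _ _) hz),
        hm (hmono m _ (le_max_right _ _) hz)⟩
    · intro D hD hDC hdense
      obtain ⟨n, hn⟩ := he D hD
      have h1 : s (n + 1) ∈ D := by
        rw [s1, hn]
        exact hf4 D (s n) (hs n).1 (hs n).2 hDC hdense
      exact ⟨s (n + 1), h1, ZFSet.mem_sep.2 ⟨(hs (n + 1)).1, n + 1, fun _ hz => hz⟩⟩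
  · exact ZFSet.mem_sep.2 ⟨hc, 0, fun _ hz => hz⟩

end SF.H48
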