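import Pool.Agent.H72.SF.XT

/-!
Module XS of the board sf_modules (MP_3b3fc8_lc): the generic sequence of length `δ` of a generic
filter over the small model.
-/

set_option autoImplicit false

open Ordinal Cardinal Order Set
open scoped ZFSet

namespace SF.H48

open SF

private def v4 (p0 p1 p2 p3 : V × V) : ℕ → V × V
  | 0 => p0
  | 1 => p1
  | 2 => p2
  | _ => p3

private theorem tf4 (hTF : T_TF) {f : (V → Prop) → (ℕ → V) → V} (hf : Tm ZFm f) {B : V} [IsCBA B]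
    {N' N : V} {b : El B} {σ : V → V → El B} (np : NP N' N) (hm : BMap N' N b σ)
    (p0 p1 p2 p3 : V × V)
    (h : σ p0.1 p0.2 ⊓ (σ p1.1 p1.2 ⊓ (σ p2.1 p2.2 ⊓ σ p3.1 p3.2)) ≠ ⊥) :
    f (· ∈ N') (fun i => (v4 p0 p1 p2 p3 i).1) ∈ N' ∧
      σ p0.1 p0.2 ⊓ (σ p1.1 p1.2 ⊓ (σ p2.1 p2.2 ⊓ σ p3.1 p3.2)) ≤
        σ (f (· ∈ N') (fun i => (v4 p0 p1 p2 p3 i).1))
          (f (· ∈ N) (fun i => (v4 p0 p1 p2 p3 i).2)) := by
  classical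
  have e : (({p0, p1, p2, p3} : Finset (V × V)).inf fun q => σ q.1 q.2) =
      σ p0.1 p0.2 ⊓ (σ p1.1 p1.2 ⊓ (σ p2.1 p2.2 ⊓ σ p3.1 p3.2)) := by
    rw [Finset.inf_insert, Finset.inf_insert, Finset.inf_insert, Finset.inf_singleton]
  have h1 := hTF f hf B N' N b σ np hm ({p0, p1, p2, p3} : Finset (V × V)) (by rw [e]; exact h)
    (v4 p0 p1 p2 p3) (by
      intro i
      rcases i with _ | _ | _ | i
      · simp [v4]
      · simp [v4]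
      · simp [v4]
      · simp [v4])
  rw [e] at h1
  exact h1

private theorem tmA : Tm ZFm (fun _ v => (v 0).sep fun d =>
    ∃ u ∈ v 1, v 2 ∈ dm u ∧ ZFSet.pair u d ∈ v 3) := by
  have h1 : Dfb ZFm (fun _ v => ∃ u ∈ v 2, v 3 ∈ dm u ∧ ZFSet.pair u (v 0) ∈ v 4) :=
    Dfb.bex (R := fun _ v => v 4 ∈ dm (v 0) ∧ ZFSet.pair (v 0) (v 1) ∈ v 5) ktr_zfm (Tm.var 2)
      ((Dfb.mem (Tm.var 4) (Tm.dm (Tm.var 0))).and
        (Dfb.pairMem (Tm.var 0) (Tm.var 1) (Tm.var 5)))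
  exact Tm.sep (R := fun _ v => ∃ u ∈ v 2, v 3 ∈ dm u ∧ ZFSet.pair u (v 0) ∈ v 4) h1 (Tm.var 0)

private theorem tmB : Tm ZFm (fun _ v => (v 0).sep fun d =>
    ∃ u ∈ v 1, ZFSet.pair u d ∈ v 3 ∧ (d ⊆ v 2 ∨ d ∩ v 2 = ∅)) := by
  have h1 : Dfb ZFm (fun _ v => ∃ u ∈ v 2, ZFSet.pair u (v 0) ∈ v 4 ∧
      (v 0 ⊆ v 3 ∨ v 0 ∩ v 3 = ∅)) :=
    Dfb.bex (R := fun _ v => ZFSet.pair (v 0) (v 1) ∈ v 5 ∧ (v 1 ⊆ v 4 ∨ v 1 ∩ v 4 = ∅))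
      ktr_zfm (Tm.var 2)
      ((Dfb.pairMem (Tm.var 0) (Tm.var 1) (Tm.var 5)).and
        ((Dfb.subset (Tm.var 1) (Tm.var 4)).or
          (Dfb.eq (Tm.inter (Tm.var 1) (Tm.var 4)) Tm.empty)))
  exact Tm.sep (R := fun _ v => ∃ u ∈ v 2, ZFSet.pair u (v 0) ∈ v 4 ∧
      (v 0 ⊆ v 3 ∨ v 0 ∩ v 3 = ∅)) h1 (Tm.var 0)

theorem xs (hXA : T_XA) (hXB : T_XB) (hXH : T_XH) (hAM : T_AM) (hAP : T_AP) (hAF : T_AF)
    (hAH : T_AH) (hTF : T_TF) (hAD : T_AD) : T_XS := by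
  intro B _ N' N b σ np hm hb H' w B' P' K' G' hH hw hB hP hK hG
  obtain ⟨xa1, xa2, xa3, xa4, xa5, xa6⟩ := hXA
  obtain ⟨xb1, xb2, xb3, xb4, xb5, xb6, -⟩ := hXB
  obtain ⟨-, xc2, xc3, xc4, xc5, -⟩ := hXH
  obtain ⟨-, -, ap3, htr, -⟩ := hAP B N' N b σ np hm hb
  obtain ⟨-, ahs, ahw⟩ := hAH B N' N b σ np hm hb H' hH
  obtain ⟨δ, hδ, -, hδ1, -, hβ, -⟩ := ahw w hw
  have am := hAM B N' N b σ np hm
  have hle : ∀ x y, σ x y ≤ b := by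
    intro x y
    by_cases h : σ x y = ⊥
    · rw [h]; exact bot_le
    · rw [← hm.tot x (hm.dom x y h).1]
      exact le_iSup (fun y => σ x y) y
  have hex : ∀ x ∈ N', ∃ y, σ x y ≠ ⊥ := by
    intro x hx
    by_contra hcon
    push Not at hcon
    apply hb
    rw [← hm.tot x hx]
    simp [hcon]
  have hN'B : B' ∈ N' := (hm.dom B' B0 (by rw [hB]; exact hb)).1
  have hN'P : P' ∈ N' := (hm.dom P' P0 (by rw [hP]; exact hb)).1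
  -- the elements of `P'`
  have h1 : ∀ u ∈ P', u ∈ P0 ∧ σ u u = b := by
    intro u hu
    obtain ⟨y, hy⟩ := hex u (htr.mem_trans hu hN'P)
    have e1 : σ u y ⊓ σ P' P0 ≠ ⊥ := by
      rw [hP, inf_eq_left.2 (hle u y)]; exact hy
    have e2 : σ u y ⊓ σ H' HC ≠ ⊥ := by
      rw [hH, inf_eq_left.2 (hle u y)]; exact hy
    have hyP : y ∈ P0 := (am _ _ _ _ e1).1.1 hu
    have huH : u ∈ H' := (am _ _ _ _ e2).1.2 (xb6 hyP)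
    have huu : σ u u = b := (ahs u huH).1
    have e3 : σ u u ⊓ σ P' P0 ≠ ⊥ := by
      rw [hP, huu, inf_idem]; exact hb
    exact ⟨(am _ _ _ _ e3).1.1 hu, huu⟩
  -- the values of `K'`
  have h2 : ∀ u ∈ P', ∃ y, (∀ x3, ZFSet.pair u x3 ∈ K' ↔ x3 = y) ∧ y ∈ N' ∧
      σ y (cl P0 leP0 u) = b := by
    intro u hu
    obtain ⟨huP, huu⟩ := h1 u hu
    obtain ⟨-, x2, hx2, e1, e2, e3⟩ := hAF B N' N b σ np hm hb K' (resS P0 (cl P0 leP0)) P' P0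
      hK hP (by
        intro y hy
        exact ⟨cl P0 leP0 y, pair_mem_resS.2 ⟨hy, rfl⟩, fun z hz => (pair_mem_resS.1 hz).2⟩) u hu
    refine ⟨x2, e1, hx2, le_antisymm (hle _ _) ?_⟩
    have := e3 u (cl P0 leP0 u) (pair_mem_resS.2 ⟨huP, rfl⟩)
    rw [huu] at this
    exact this
  choose! k hk1 hk2 hk3 using h2
  -- the chain
  have hchain : ∀ u ∈ P', ∀ v ∈ P', k u ∈ G' → k v ∈ G' → u ⊆ v ∨ v ⊆ u := by
    intro u hu v hv hku hkv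
    have e1 : k u ∩ k v ∈ G' := hG.inter _ hku _ hkv
    have e2 : k u ∩ k v ≠ ∅ := fun h => hG.bot (h ▸ e1)
    have e3 := (ap3 (k u) (hk2 u hu) (k v) (hk2 v hv)).2 (cl P0 leP0 u) (cl P0 leP0 v)
    rw [hk3 u hu, hk3 v hv, inf_idem] at e3
    have e4 : σ (k u ∩ k v) (cl P0 leP0 u ∩ cl P0 leP0 v) = b := le_antisymm (hle _ _) e3
    have e5 : σ (k u ∩ k v) (cl P0 leP0 u ∩ cl P0 leP0 v) ⊓
        σ (k u ∩ k v) (cl P0 leP0 u ∩ cl P0 leP0 v) ≠ ⊥ := by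
      rw [e4, inf_idem]; exact hb
    have e6 : cl P0 leP0 u ∩ cl P0 leP0 v ≠ ∅ := fun h =>
      e2 ((am _ _ _ _ e5).2.2.2.2 h)
    obtain ⟨s, hs, hus, hvs⟩ := xc4 u (h1 u hu).1 v (h1 v hv).1 e6
    exact xa3 u (h1 u hu).1 v (h1 v hv).1 s hs hus hvs
  -- the domains
  have hdm : ∀ u ∈ P', dm u ∈ w := by
    intro u hu
    obtain ⟨huP, huu⟩ := h1 u hu
    have e0 : Tm ZFm (fun _ v => dm (v 0)) := Tm.dm (Tm.var 0)
    have e1 := tf4 hTF e0 np hm (u, u) (u, u) (u, u) (u, u) (by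
      show σ u u ⊓ (σ u u ⊓ (σ u u ⊓ σ u u)) ≠ ⊥
      rw [huu, inf_idem, inf_idem, inf_idem]; exact hb)
    have e2 : b ≤ σ (dm u) (dm u) := by
      have := e1.2
      have e3 : σ (u, u).1 (u, u).2 ⊓ (σ (u, u).1 (u, u).2 ⊓ (σ (u, u).1 (u, u).2 ⊓
          σ (u, u).1 (u, u).2)) = b := by
        show σ u u ⊓ (σ u u ⊓ (σ u u ⊓ σ u u)) = b
        rw [huu, inf_idem, inf_idem, inf_idem]
      rw [e3] at this
      exact this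
    have e4 : σ (dm u) (dm u) ⊓ σ w w1 ≠ ⊥ := by
      rw [le_antisymm (hle _ _) e2, hw, inf_idem]; exact hb
    refine (am _ _ _ _ e4).1.2 ?_
    obtain ⟨α, hα, hα2, -⟩ := (xa1 u).1 huP
    rw [hα2]
    exact Ordinal.mem_toZFSet_iff.2 ⟨α, hα, rfl⟩
  -- dense sets of long conditions
  have hlong : ∀ β < δ, ∃ u ∈ P', β.toZFSet ∈ dm u ∧ k u ∈ G' := by
    intro β hβδ
    have hββ := (hβ β hβδ).2
    have e0 : σ B' B0 ⊓ (σ P' P0 ⊓ (σ β.toZFSet β.toZFSet ⊓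
        σ K' (resS P0 (cl P0 leP0)))) = b := by
      rw [hB, hP, hββ, hK, inf_idem, inf_idem, inf_idem]
    obtain ⟨e1, e2⟩ := tf4 hTF tmA np hm (B', B0) (P', P0) (β.toZFSet, β.toZFSet)
      (K', resS P0 (cl P0 leP0)) (by rw [e0]; exact hb)
    rw [e0] at e2
    obtain ⟨D, hD⟩ : ∃ D : V, D = B'.sep fun d => ∃ u ∈ P', β.toZFSet ∈ dm u ∧
        ZFSet.pair u d ∈ K' := ⟨_, rfl⟩
    obtain ⟨E, hE⟩ : ∃ E : V, E = B0.sep fun d => ∃ u ∈ P0, β.toZFSet ∈ dm u ∧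
        ZFSet.pair u d ∈ resS P0 (cl P0 leP0) := ⟨_, rfl⟩
    have e3 : D ∈ N' := by rw [hD]; exact e1
    have e4 : b ≤ σ D E := by rw [hD, hE]; exact e2
    have e5 : σ D E ≠ ⊥ := fun h => hb (le_bot_iff.1 (h ▸ e4))
    have e6 := (hAD B N' N b σ np hm hb B' B0 hB D E e5).2.2 (by
      intro x hx hx0
      obtain ⟨q, hq, hqx, -⟩ := xc5 x hx x hx hx0
      obtain ⟨q', hq', hqq', hβq⟩ := xa6 q hq β (lt_trans hβδ hδ1)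
      refine ⟨cl P0 leP0 q', ?_, (xc2 q' hq').2.2, fun z hz => hqx (xc3 q hq q' hq' hqq' hz)⟩
      rw [hE]
      exact ZFSet.mem_sep.2 ⟨(xc2 q' hq').1, q', hq', hβq, pair_mem_resS.2 ⟨hq', rfl⟩⟩)
    obtain ⟨d, hdD, hdG⟩ := hG.meets D e3 (by
      rw [hD]; exact fun z hz => (ZFSet.mem_sep.1 hz).1) e6
    rw [hD] at hdD
    obtain ⟨-, u, hu, hβu, hud⟩ := ZFSet.mem_sep.1 hdD
    refine ⟨u, hu, hβu, ?_⟩
    rw [← (hk1 u hu d).1 hud]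
    exact hdG
  -- the sequence
  obtain ⟨F, hF⟩ : ∃ F : V, F = P'.sep fun u => k u ∈ G' := ⟨_, rfl⟩
  have hmF : ∀ u, u ∈ F ↔ u ∈ P' ∧ k u ∈ G' := by
    intro u
    rw [hF, ZFSet.mem_sep]
  have hq : (⋃₀ F : ZFSet) ∈ P0 := by
    refine xa4 F ?_ ?_ ?_
    · refine np.ctb.mono fun u hu => ?_
      exact htr.mem_trans ((hmF u).1 hu).1 hN'P
    · exact fun u hu => (h1 u ((hmF u).1 hu).1).1
    · intro p hp q hq
      exact hchain p ((hmF p).1 hp).1 q ((hmF q).1 hq).1 ((hmF p).1 hp).2 ((hmF q).1 hq).2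
  refine ⟨⋃₀ F, hq, ?_, ?_⟩
  · ext x
    rw [mem_dm]
    constructor
    · rintro ⟨y, hy⟩
      obtain ⟨u, hu, hyu⟩ := ZFSet.mem_sUnion.1 hy
      have e1 : x ∈ dm u := mem_dm.2 ⟨y, hyu⟩
      have e2 := hdm u ((hmF u).1 hu).1
      rw [hδ] at e2 ⊢
      exact (ZFSet.isOrdinal_toZFSet δ).isTransitive.mem_trans e1 e2
    · intro hx
      rw [hδ] at hx
      obtain ⟨β, hβδ, rfl⟩ := Ordinal.mem_toZFSet_iff.1 hx
      obtain ⟨u, hu, hβu, hku⟩ := hlong β hβδ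
      obtain ⟨y, hy⟩ := mem_dm.1 hβu
      exact ⟨y, ZFSet.mem_sUnion.2 ⟨u, (hmF u).2 ⟨hu, hku⟩, hy⟩⟩
  · intro x hx
    have hxB : x ∈ B' := hG.sub hx
    obtain ⟨z, hz⟩ := hex x (htr.mem_trans hxB hN'B)
    have e0 : σ B' B0 ⊓ (σ P' P0 ⊓ (σ x z ⊓ σ K' (resS P0 (cl P0 leP0)))) = σ x z := by
      rw [hB, hP, hK, inf_eq_left.2 (hle x z), inf_eq_right.2 (hle x z), inf_eq_right.2 (hle x z)]
    have hzB : z ∈ B0 := by
      have e1 : σ x z ⊓ σ B' B0 ≠ ⊥ := by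
        rw [hB, inf_eq_left.2 (hle x z)]; exact hz
      exact (am _ _ _ _ e1).1.1 hxB
    obtain ⟨e1, e2⟩ := tf4 hTF tmB np hm (B', B0) (P', P0) (x, z)
      (K', resS P0 (cl P0 leP0)) (by rw [e0]; exact hz)
    rw [e0] at e2
    obtain ⟨D, hD⟩ : ∃ D : V, D = B'.sep fun d => ∃ u ∈ P', ZFSet.pair u d ∈ K' ∧
        (d ⊆ x ∨ d ∩ x = ∅) := ⟨_, rfl⟩
    obtain ⟨E, hE⟩ : ∃ E : V, E = B0.sep fun d => ∃ u ∈ P0,
        ZFSet.pair u d ∈ resS P0 (cl P0 leP0) ∧ (d ⊆ z ∨ d ∩ z = ∅) := ⟨_, rfl⟩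
    have e3 : D ∈ N' := by rw [hD]; exact e1
    have e4 : σ x z ≤ σ D E := by rw [hD, hE]; exact e2
    have e5 : σ D E ≠ ⊥ := fun h => hz (le_bot_iff.1 (h ▸ e4))
    have e6 := (hAD B N' N b σ np hm hb B' B0 hB D E e5).2.2 (by
      intro y hy hy0
      obtain ⟨q, hq, hqy, hqz⟩ := xc5 y hy z hzB hy0
      refine ⟨cl P0 leP0 q, ?_, (xc2 q hq).2.2, hqy⟩
      rw [hE]
      exact ZFSet.mem_sep.2 ⟨(xc2 q hq).1, q, hq, pair_mem_resS.2 ⟨hq, rfl⟩, hqz⟩)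
    obtain ⟨d, hdD, hdG⟩ := hG.meets D e3 (by
      rw [hD]; exact fun z hz => (ZFSet.mem_sep.1 hz).1) e6
    rw [hD] at hdD
    obtain ⟨-, u, hu, hud, hdx⟩ := ZFSet.mem_sep.1 hdD
    have hdk : d = k u := (hk1 u hu d).1 hud
    have hdx' : d ⊆ x := by
      rcases hdx with h | h
      · exact h
      · exact absurd (h ▸ hG.inter d hdG x hx) hG.bot
    refine ⟨u, hu, ?_, (h1 u hu).1, d, hud, hdG, hdx', ?_⟩
    · intro t ht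
      exact ZFSet.mem_sUnion.2 ⟨u, (hmF u).2 ⟨hu, hdk ▸ hdG⟩, ht⟩
    · rw [hdk]
      exact hk3 u hu

end SF.H48
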