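import Pool.Agent.H84.SF.Loc

/-!
# MP_70ba79_ag, chapter 11: module EXD (the difference of two points)
-/

set_option autoImplicit false

namespace Pool.Agent.H48.SF

open MvPolynomial SC
open Pool.Agent.H84.SF
open Pool.Agent.H27.LV (ge deg poleOrder canDeg)
open Pool.Agent.H92.OD (HS cf sg uu Lat geO IsO DF DD hs_ext geO_mono geO_zero geO_add geO_neg
  geO_sub geO_mul geO_one exists_IsO cf_add cf_zero)
open Pool.Agent.H84.SM (y1 y2 Near)

section

variable {k O : Type} [Field k] [CommRing O] [Algebra k O]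

theorem mul0 {x y : HS k} (hx : geO 0 x) (hy : geO 0 y) : geO 0 (x * y) := by
  have h := geO_mul hx hy
  rwa [add_zero] at h

/-- the set of functions for which the expansion holds -/
def Gd (dG : Derivation k O O) (x1 x2 : O →ₐ[k] HS k) (t : HS k) (h : O) : Prop :=
  ∃ R : HS k, geO 0 R ∧ x2 h = x1 h + t * x1 (dG h) + t ^ 2 * R

theorem gd_add {dG : Derivation k O O} {x1 x2 : O →ₐ[k] HS k} {t : HS k} {h g : O}
    (hh : Gd dG x1 x2 t h) (hg : Gd dG x1 x2 t g) : Gd dG x1 x2 t (h + g) := by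
  obtain ⟨R, hR, e1⟩ := hh
  obtain ⟨S, hS, e2⟩ := hg
  refine ⟨R + S, geO_add hR hS, ?_⟩
  rw [map_add, map_add, map_add, map_add, e1, e2]
  ring

theorem gd_mul {dG : Derivation k O O} {x1 x2 : O →ₐ[k] HS k} {t : HS k} (ht : geO 0 t)
    (hi : ∀ h, geO 0 (x1 h)) {h g : O}
    (hh : Gd dG x1 x2 t h) (hg : Gd dG x1 x2 t g) : Gd dG x1 x2 t (h * g) := by
  obtain ⟨R, hR, e1⟩ := hh
  obtain ⟨S, hS, e2⟩ := hg
  refine ⟨x1 h * S + R * x1 g + x1 (dG h) * x1 (dG g) + t * (x1 (dG h) * S + x1 (dG g) * R) +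
    t * t * (R * S), ?_, ?_⟩
  · refine geO_add (geO_add (geO_add (geO_add ?_ ?_) ?_) ?_) ?_
    · exact mul0 (hi h) hS
    · exact mul0 hR (hi g)
    · exact mul0 (hi _) (hi _)
    · exact mul0 ht (geO_add (mul0 (hi _) hS) (mul0 (hi _) hR))
    · exact mul0 (mul0 ht ht) (mul0 hR hS)
  · rw [map_mul, map_mul, Derivation.leibniz, smul_eq_mul, smul_eq_mul, map_add, map_mul, map_mul,
      e1, e2]
    ring

theorem gd_aeval {ε : O →ₐ[k] k} {X G : O} {dX dG : Derivation k O O} (hF : Frm ε X G dX dG)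
    {x1 x2 : O →ₐ[k] HS k} (h1 : Pnt X G x1) (h2 : Pnt X G x2) (P : MvPolynomial (Fin 2) k) :
    Gd dG x1 x2 (x2 G - x1 G) (aeval ![X, G] P) := by
  have ht : geO 0 (x2 G - x1 G) := geO_sub (h2.int G) (h1.int G)
  induction P using MvPolynomial.induction_on with
  | C a =>
    refine ⟨0, geO_zero 0, ?_⟩
    rw [aeval_C, AlgHom.commutes, AlgHom.commutes, Derivation.map_algebraMap, map_zero, mul_zero,
      mul_zero, add_zero, add_zero]
  | add p q hp hq =>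
    rw [map_add]
    exact gd_add hp hq
  | mul_X p i hp =>
    rw [map_mul, aeval_X]
    refine gd_mul ht h1.int hp ?_
    fin_cases i
    · refine ⟨0, geO_zero 0, ?_⟩
      change x2 X = x1 X + (x2 G - x1 G) * x1 (dG X) + (x2 G - x1 G) ^ 2 * 0
      rw [h1.eqX, h2.eqX, hF.gx, map_zero, mul_zero, mul_zero, add_zero, add_zero]
    · refine ⟨0, geO_zero 0, ?_⟩
      change x2 G = x1 G + (x2 G - x1 G) * x1 (dG G) + (x2 G - x1 G) ^ 2 * 0
      rw [hF.gg, map_one]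
      ring

theorem geO_div {E t : HS k} {μ : ℚ} (hE : geO (μ + μ) E) (ht : IsO t μ) :
    geO 0 (E / t ^ 2) := by
  have ht0 := ht.ne_zero
  rcases eq_or_ne E 0 with rfl | hE0
  · rw [zero_div]
    exact geO_zero 0
  · obtain ⟨e, he⟩ := exists_IsO hE0
    have h1 : μ + μ ≤ e := by
      by_contra h
      push Not at h
      exact he.1 (hE e h)
    have h2 : E / t ^ 2 ≠ 0 := div_ne_zero hE0 (pow_ne_zero 2 ht0)
    obtain ⟨f, hf⟩ := exists_IsO h2
    have h3 : IsO E (f + (μ + μ)) := by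
      have h4 := hf.mul (ht.mul ht)
      have h5 : E / t ^ 2 * (t * t) = E := by
        rw [← pow_two, div_mul_cancel₀ E (pow_ne_zero 2 ht0)]
      rwa [h5] at h4
    have h6 := he.unique h3
    exact geO_mono hf.2 (by linarith)

end

theorem pf_EXD (hAPX : Pool.Agent.H84.SF.T_APX) (hREM : Pool.Agent.H84.SF.T_REM) :
    Pool.Agent.H84.SF.T_EXD := by
  intro k O _ _ _ _ ε X G dX dG hF x1 x2 h1 h2 h
  obtain ⟨r1, hr1, hg1⟩ := h1.pos
  obtain ⟨r2, hr2, hg2⟩ := h2.pos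
  obtain ⟨ρ, hρ⟩ : ∃ ρ : ℚ, ρ = min 1 (min r1 r2) := ⟨_, rfl⟩
  have hρ0 : 0 < ρ := by
    rw [hρ]
    exact lt_min one_pos (lt_min hr1 hr2)
  have hρ1 : ρ ≤ 1 := by
    rw [hρ]
    exact min_le_left _ _
  have hρr1 : ρ ≤ r1 := by
    rw [hρ]
    exact (min_le_right _ _).trans (min_le_left _ _)
  have hρr2 : ρ ≤ r2 := by
    rw [hρ]
    exact (min_le_right _ _).trans (min_le_right _ _)
  have hG1 := geO_mono hg1 hρr1
  have hG2 := geO_mono hg2 hρr2
  have hrem : ∀ (N : ℕ) (r : O), r ∈ Ideal.span {X, G} ^ (N + 1) →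
      geO ((N + 1) * ρ) (x1 r) ∧ geO ((N + 1) * ρ) (x2 r) := by
    intro N r hr
    have h3 := (hREM k O ε X G dX dG hF N r hr).2.2
    exact ⟨h3 x1 h1 ρ hρ0 hρ1 hG1, h3 x2 h2 ρ hρ0 hρ1 hG2⟩
  have ht0 : geO 0 (x2 G - x1 G) := geO_sub (h2.int G) (h1.int G)
  by_cases ht : x2 G - x1 G = 0
  · refine ⟨0, geO_zero 0, ?_⟩
    rw [ht, zero_mul, mul_zero, add_zero, add_zero]
    refine hs_ext fun r => ?_
    obtain ⟨N, hN⟩ := exists_nat_gt (r / ρ)
    have hN' : r < ((N : ℚ) + 1) * ρ := by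
      have h3 := (div_lt_iff₀ hρ0).1 hN
      nlinarith
    obtain ⟨P, s, hs, e⟩ := hAPX k O ε X G dX dG hF (N + 1) h
    obtain ⟨R, _, e2⟩ := gd_aeval hF h1 h2 P
    rw [ht, zero_mul, add_zero] at e2
    have e3 : x2 (aeval ![X, G] P) = x1 (aeval ![X, G] P) := by
      rw [e2]
      ring
    have h4 := hrem N s hs
    rw [e, map_add, map_add, cf_add, cf_add, e3, h4.1 r hN', h4.2 r hN']
  · obtain ⟨μ, hμ⟩ := exists_IsO ht
    obtain ⟨N, hN⟩ := exists_nat_gt ((μ + μ) / ρ)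
    have hN' : μ + μ ≤ ((N : ℚ) + 1) * ρ := by
      have h3 := (div_lt_iff₀ hρ0).1 hN
      nlinarith
    obtain ⟨P, s, hs, e⟩ := hAPX k O ε X G dX dG hF (N + 1 + 1) h
    obtain ⟨R, hR, e2⟩ := gd_aeval hF h1 h2 P
    have h5 := (hREM k O ε X G dX dG hF (N + 1) s hs).2.1
    have h6 := (hrem N _ h5).1
    have hN2 : ((N : ℚ) + 1) * ρ ≤ (((N + 1 : ℕ) : ℚ) + 1) * ρ := by
      push_cast
      nlinarith
    have h7 := hrem (N + 1) s hs
    have hE : geO (μ + μ) (x2 s - x1 s - (x2 G - x1 G) * x1 (dG s)) := by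
      refine geO_mono ?_ hN'
      refine geO_sub (geO_sub (geO_mono h7.2 hN2) (geO_mono h7.1 hN2)) ?_
      have h8 := geO_mul ht0 h6
      rwa [zero_add] at h8
    refine ⟨R + (x2 s - x1 s - (x2 G - x1 G) * x1 (dG s)) / (x2 G - x1 G) ^ 2,
      geO_add hR (geO_div hE hμ), ?_⟩
    have h9 : (x2 G - x1 G) ^ 2 * ((x2 s - x1 s - (x2 G - x1 G) * x1 (dG s)) /
        (x2 G - x1 G) ^ 2) = x2 s - x1 s - (x2 G - x1 G) * x1 (dG s) :=
      mul_div_cancel₀ _ (pow_ne_zero 2 ht)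
    rw [mul_add, h9, e, map_add, map_add, map_add, map_add, e2]
    ring

end Pool.Agent.H48.SF
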